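import Pool.Agent.TH220.CF.Wedge

set_option autoImplicit false

open MeasureTheory Metric Set Finset

namespace TH220.CF

/-- Caro-Wei -/
theorem caro_wei {α : Type*} [DecidableEq α] (R : α → α → Prop) [DecidableRel R]
    (hs : ∀ x y, R x y → R y x) : ∀ (k : ℕ) (V : Finset α), V.card = k →
    ∃ I ⊆ V, (∀ x ∈ I, ∀ y ∈ I, x ≠ y → ¬ R x y) ∧
      ∑ x ∈ V, (1 : ℝ) / (1 + (V.filter (fun y => R x y)).card) ≤ I.card := by
  intro k
  induction k using Nat.strong_induction_on with
  | _ k ih =>
    intro V hV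
    rcases V.eq_empty_or_nonempty with rfl | hne
    · exact ⟨∅, by simp, by simp, by simp⟩
    · obtain ⟨v, hv, hmin⟩ := Finset.exists_min_image V (fun x => (V.filter (fun y => R x y)).card) hne
      set T := insert v (V.filter (fun y => R v y)) with hT
      have hTV : T ⊆ V := Finset.insert_subset hv (Finset.filter_subset _ _)
      have hvT : v ∈ T := Finset.mem_insert_self _ _
      have hcard : (V \ T).card < k := by
        rw [← hV]
        exact Finset.card_lt_card (Finset.sdiff_ssubset hTV ⟨v, hvT⟩)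
      obtain ⟨I, hI, hind, hsum⟩ := ih _ hcard (V \ T) rfl
      have hvI : v ∉ I := fun h => (Finset.mem_sdiff.1 (hI h)).2 hvT
      have hnR : ∀ y ∈ I, ¬ R v y := by
        intro y hy hR
        have h1 := Finset.mem_sdiff.1 (hI hy)
        exact h1.2 (Finset.mem_insert_of_mem (Finset.mem_filter.2 ⟨h1.1, hR⟩))
      refine ⟨insert v I, Finset.insert_subset hv (hI.trans Finset.sdiff_subset), ?_, ?_⟩
      · intro x hx y hy hxy hR
        rcases Finset.mem_insert.1 hx with h1 | h1 <;> rcases Finset.mem_insert.1 hy with h2 | h2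
        · exact hxy (h1.trans h2.symm)
        · exact hnR y h2 (h1 ▸ hR)
        · exact hnR x h1 (hs _ _ (h2 ▸ hR))
        · exact hind x h1 y h2 hxy hR
      · rw [Finset.card_insert_of_notMem hvI, ← Finset.sum_sdiff hTV]
        have hA : ∑ x ∈ V \ T, (1 : ℝ) / (1 + (V.filter (fun y => R x y)).card) ≤ I.card := by
          refine le_trans (Finset.sum_le_sum (fun x hx => ?_)) hsum
          have : ((V \ T).filter (fun y => R x y)).card ≤ (V.filter (fun y => R x y)).card :=
            Finset.card_le_card (Finset.filter_subset_filter _ Finset.sdiff_subset)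
          have h' : (((V \ T).filter (fun y => R x y)).card : ℝ)
              ≤ ((V.filter (fun y => R x y)).card : ℝ) := by exact_mod_cast this
          exact one_div_le_one_div_of_le (by positivity) (by linarith)
        have hB : ∑ x ∈ T, (1 : ℝ) / (1 + (V.filter (fun y => R x y)).card) ≤ 1 := by
          have h1 : ∀ x ∈ T, (1 : ℝ) / (1 + (V.filter (fun y => R x y)).card)
              ≤ 1 / (1 + (V.filter (fun y => R v y)).card) := by
            intro x hx
            have : ((V.filter (fun y => R v y)).card : ℝ) ≤ (V.filter (fun y => R x y)).card := by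
              exact_mod_cast hmin x (hTV hx)
            exact one_div_le_one_div_of_le (by positivity) (by linarith)
          refine (Finset.sum_le_sum h1).trans ?_
          rw [Finset.sum_const, nsmul_eq_mul, mul_one_div, div_le_one (by positivity)]
          have : T.card ≤ (V.filter (fun y => R v y)).card + 1 := Finset.card_insert_le _ _
          have h' : (T.card : ℝ) ≤ (V.filter (fun y => R v y)).card + 1 := by exact_mod_cast this
          linarith
        push_cast
        linarith

variable {n : ℕ}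

/-- `(x,y)` is a bad contact for `u` -/
def Bad (u x y : EuclideanSpace ℝ (Fin n)) : Prop :=
  inner ℝ (2 • x - y) u ≤ 0 ∧ inner ℝ (2 • y - x) u ≤ 0

theorem hyper_null (v : EuclideanSpace ℝ (Fin n)) (hv : v ≠ 0) :
    volume {u : EuclideanSpace ℝ (Fin n) | inner ℝ v u = 0} = 0 := by
  have h : {u : EuclideanSpace ℝ (Fin n) | inner ℝ v u = 0} = ((ℝ ∙ v)ᗮ : Submodule ℝ _) := by
    ext u
    simp [Submodule.mem_orthogonal_singleton_iff_inner_right]
  rw [h]
  refine Measure.addHaar_submodule _ _ ?_
  intro htop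
  have : v ∈ ((ℝ ∙ v)ᗮ : Submodule ℝ (EuclideanSpace ℝ (Fin n))) := by rw [htop]; trivial
  rw [Submodule.mem_orthogonal_singleton_iff_inner_right] at this
  exact hv (inner_self_eq_zero.1 this)

/-- averaging over `u` in the unit ball: weights `l x y ≥ 0` on the contacts -/
theorem exists_dir (P : Finset (EuclideanSpace ℝ (Fin n) × EuclideanSpace ℝ (Fin n)))
    (l : EuclideanSpace ℝ (Fin n) × EuclideanSpace ℝ (Fin n) → ℝ) (hl : ∀ p ∈ P, 0 ≤ l p)
    (h1 : ∀ p ∈ P, ‖p.1‖ = 1) (h2 : ∀ p ∈ P, ‖p.2‖ = 1)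
    (h3 : ∀ p ∈ P, inner ℝ p.1 p.2 = (1 / 2 : ℝ)) (Z : Finset (EuclideanSpace ℝ (Fin n)))
    (hZ : ∀ z ∈ Z, z ≠ 0) :
    ∃ u : EuclideanSpace ℝ (Fin n), (∀ z ∈ Z, inner ℝ z u ≠ 0) ∧
      ∑ p ∈ P, l p * ((cone (2 • p.1 - p.2) (2 • p.2 - p.1)).indicator (fun _ => (1 : ℝ)) u
        + (cone (-(2 • p.1 - p.2)) (-(2 • p.2 - p.1))).indicator (fun _ => (1 : ℝ)) u)
      ≤ (∑ p ∈ P, l p) / 3 := by
  classical
  set B := ball (0 : EuclideanSpace ℝ (Fin n)) 1 with hB
  set ν : Measure (EuclideanSpace ℝ (Fin n)) := volume.restrict B with hν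
  have hBpos : 0 < volume B := measure_ball_pos _ _ one_pos
  have hBfin : volume B ≠ ⊤ := measure_ball_lt_top.ne
  have : IsFiniteMeasure ν := ⟨by rw [hν, Measure.restrict_apply_univ]; exact hBfin.lt_top⟩
  have hν0 : ν ≠ 0 := by
    intro h
    have : ν univ = 0 := by rw [h]; rfl
    rw [hν, Measure.restrict_apply_univ] at this
    exact hBpos.ne' this
  have hcont : ∀ v : EuclideanSpace ℝ (Fin n), Continuous (fun u => (inner ℝ v u : ℝ)) := by
    intro v
    fun_prop
  have hmeas : ∀ a b : EuclideanSpace ℝ (Fin n), MeasurableSet (cone a b) := fun a b =>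
    (measurableSet_lt (hcont a).measurable measurable_const).inter
      (measurableSet_lt (hcont b).measurable measurable_const)
  have hint : ∀ a b : EuclideanSpace ℝ (Fin n),
      Integrable ((cone a b).indicator (fun _ => (1 : ℝ))) ν := fun a b =>
    (integrable_const (1 : ℝ)).indicator (hmeas a b)
  have hval : ∀ a b : EuclideanSpace ℝ (Fin n),
      ∫ u, (cone a b).indicator (fun _ => (1 : ℝ)) u ∂ν = (volume (B ∩ cone a b)).toReal := by
    intro a b
    rw [integral_indicator (hmeas a b), setIntegral_const, smul_eq_mul, mul_one,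
      Measure.real, hν, Measure.restrict_apply (hmeas a b), inter_comm]
  set N : Set (EuclideanSpace ℝ (Fin n)) :=
    ⋃ z ∈ (Z : Set (EuclideanSpace ℝ (Fin n))), {u | inner ℝ z u = 0} with hN
  have hN0 : ν N = 0 := by
    refine le_antisymm ((Measure.restrict_apply_le _ _).trans ?_) bot_le
    refine le_of_eq ?_
    rw [hN, measure_biUnion_null_iff Z.countable_toSet]
    intro z hz
    exact hyper_null z (hZ z (by exact_mod_cast hz))
  let f : EuclideanSpace ℝ (Fin n) → ℝ := fun u =>
    ∑ p ∈ P, l p * ((cone (2 • p.1 - p.2) (2 • p.2 - p.1)).indicator (fun _ => (1 : ℝ)) u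
        + (cone (-(2 • p.1 - p.2)) (-(2 • p.2 - p.1))).indicator (fun _ => (1 : ℝ)) u)
  have hip : ∀ p ∈ P, Integrable (fun u => l p *
      ((cone (2 • p.1 - p.2) (2 • p.2 - p.1)).indicator (fun _ => (1 : ℝ)) u
        + (cone (-(2 • p.1 - p.2)) (-(2 • p.2 - p.1))).indicator (fun _ => (1 : ℝ)) u)) ν :=
    fun p _ => ((hint _ _).add (hint _ _)).const_mul _
  have hf : Integrable f ν := integrable_finsetSum _ hip
  obtain ⟨u, hu, hle⟩ := exists_notMem_null_le_average hν0 hf hN0
  refine ⟨u, ?_, hle.trans ?_⟩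
  · intro z hz h0
    exact hu (Set.mem_biUnion (by exact_mod_cast hz) h0)
  · have hVr : 0 < (volume B).toReal := ENNReal.toReal_pos hBpos.ne' hBfin
    have hnorm : ∀ a b : EuclideanSpace ℝ (Fin n), ‖a‖ = 1 → ‖b‖ = 1 →
        inner ℝ a b = (1 / 2 : ℝ) → ‖2 • a - b‖ ^ 2 = 3 := by
      intro a b ha hb hab
      rw [two_smul, norm_sub_sq_real, ← two_smul ℝ a, norm_smul, ha, hb, inner_smul_left, hab]
      norm_num
    have hin : ∀ a b : EuclideanSpace ℝ (Fin n), ‖a‖ = 1 → ‖b‖ = 1 →
        inner ℝ a b = (1 / 2 : ℝ) → inner ℝ (2 • a - b) (2 • b - a) = -((3 : ℝ) / 2) := by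
      intro a b ha hb hab
      rw [two_smul, two_smul, ← two_smul ℝ a, ← two_smul ℝ b, inner_sub_left, inner_sub_right,
        inner_sub_right, inner_smul_left, inner_smul_left, inner_smul_right, inner_smul_right,
        hab, real_inner_comm a b, hab, real_inner_self_eq_norm_sq, real_inner_self_eq_norm_sq,
        ha, hb]
      norm_num
    have hc : ∀ a b : EuclideanSpace ℝ (Fin n), ‖a‖ ^ 2 = 3 → ‖b‖ ^ 2 = 3 →
        inner ℝ a b = -((3 : ℝ) / 2) →
        (volume (B ∩ cone a b)).toReal ≤ (volume B).toReal / 6 := by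
      intro a b ha hb hab
      have h := cone_measure a b 3 (by norm_num) ha hb hab
      have h' := ENNReal.toReal_mono hBfin h
      rw [ENNReal.toReal_mul] at h'
      norm_num at h'
      rw [← hB] at h'
      linarith
    rw [average_eq, smul_eq_mul]
    have hreal : ν.real univ = (volume B).toReal := by
      rw [Measure.real, hν, Measure.restrict_apply_univ]
    rw [hreal, inv_mul_le_iff₀ hVr]
    have hI : ∫ a, f a ∂ν = ∑ p ∈ P, l p * ((volume (B ∩ cone (2 • p.1 - p.2)
        (2 • p.2 - p.1))).toReal + (volume (B ∩ cone (-(2 • p.1 - p.2))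
        (-(2 • p.2 - p.1)))).toReal) := by
      simp only [f]
      rw [integral_finsetSum _ hip]
      refine Finset.sum_congr rfl (fun p _ => ?_)
      rw [integral_const_mul, integral_add (hint _ _) (hint _ _), hval, hval]
    rw [hI]
    calc _ ≤ ∑ p ∈ P, l p * ((volume B).toReal / 6 + (volume B).toReal / 6) := by
          refine Finset.sum_le_sum (fun p hp => mul_le_mul_of_nonneg_left (add_le_add ?_ ?_)
            (hl p hp))
          · exact hc _ _ (hnorm _ _ (h1 p hp) (h2 p hp) (h3 p hp))
              (hnorm _ _ (h2 p hp) (h1 p hp) (by rw [real_inner_comm]; exact h3 p hp))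
              (hin _ _ (h1 p hp) (h2 p hp) (h3 p hp))
          · refine hc _ _ ?_ ?_ ?_
            · rw [norm_neg]
              exact hnorm _ _ (h1 p hp) (h2 p hp) (h3 p hp)
            · rw [norm_neg]
              exact hnorm _ _ (h2 p hp) (h1 p hp) (by rw [real_inner_comm]; exact h3 p hp)
            · rw [inner_neg_neg]
              exact hin _ _ (h1 p hp) (h2 p hp) (h3 p hp)
      _ = (volume B).toReal * ((∑ p ∈ P, l p) / 3) := by
          rw [← Finset.sum_mul]
          ring

end TH220.CF
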