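import Mathlib

set_option autoImplicit false

open MeasureTheory Metric Set

namespace TH220.CF

variable {n : ℕ}

/-- reflection in the hyperplane orthogonal to `v` -/
noncomputable def refl (v : EuclideanSpace ℝ (Fin n)) :
    EuclideanSpace ℝ (Fin n) ≃ₗᵢ[ℝ] EuclideanSpace ℝ (Fin n) := (ℝ ∙ v)ᗮ.reflection

theorem refl_apply (v u : EuclideanSpace ℝ (Fin n)) :
    refl v u = u - (2 * (inner ℝ v u / ‖v‖ ^ 2)) • v := by
  rw [refl, Submodule.reflection_orthogonal_apply, Submodule.reflection_singleton_apply]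
  simp only [RCLike.ofReal_real_eq_id, id_eq, two_smul, two_mul, add_smul]
  abel

/-- the open cone `⟨u,α⟩ < 0`, `⟨u,β⟩ < 0` -/
def cone (α β : EuclideanSpace ℝ (Fin n)) : Set (EuclideanSpace ℝ (Fin n)) :=
  {u | inner ℝ α u < 0 ∧ inner ℝ β u < 0}

theorem cone_measure (α β : EuclideanSpace ℝ (Fin n)) (r : ℝ) (hr : 0 < r)
    (hα : ‖α‖ ^ 2 = r) (hβ : ‖β‖ ^ 2 = r) (hαβ : inner ℝ α β = -(r / 2)) :
    6 * volume (ball (0 : EuclideanSpace ℝ (Fin n)) 1 ∩ cone α β)
      ≤ volume (ball (0 : EuclideanSpace ℝ (Fin n)) 1) := by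
  set B := ball (0 : EuclideanSpace ℝ (Fin n)) 1 with hB
  have ra : ∀ u, inner ℝ α (refl α u) = - inner ℝ α u := by
    intro u
    rw [refl_apply, inner_sub_right, inner_smul_right, real_inner_self_eq_norm_sq, hα]
    field_simp
    ring
  have rb : ∀ u, inner ℝ β (refl α u) = inner ℝ α u + inner ℝ β u := by
    intro u
    rw [refl_apply, inner_sub_right, inner_smul_right, real_inner_comm α β, hαβ, hα]
    field_simp
    ring
  have sa : ∀ u, inner ℝ α (refl β u) = inner ℝ α u + inner ℝ β u := by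
    intro u
    rw [refl_apply, inner_sub_right, inner_smul_right, hαβ, hβ]
    field_simp
    ring
  have sb : ∀ u, inner ℝ β (refl β u) = - inner ℝ β u := by
    intro u
    rw [refl_apply, inner_sub_right, inner_smul_right, real_inner_self_eq_norm_sq, hβ]
    field_simp
    ring
  have hcont : ∀ v : EuclideanSpace ℝ (Fin n), Continuous (fun u => (inner ℝ v u : ℝ)) := by
    intro v
    fun_prop
  let S1 : Set (EuclideanSpace ℝ (Fin n)) := B ∩ {u | inner ℝ α u < 0 ∧ inner ℝ β u < 0}
  let S2 : Set (EuclideanSpace ℝ (Fin n)) :=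
    B ∩ {u | 0 < inner ℝ α u ∧ inner ℝ α u + inner ℝ β u < 0}
  let S3 : Set (EuclideanSpace ℝ (Fin n)) :=
    B ∩ {u | 0 < inner ℝ β u ∧ inner ℝ α u + inner ℝ β u < 0}
  let S4 : Set (EuclideanSpace ℝ (Fin n)) :=
    B ∩ {u | inner ℝ β u < 0 ∧ 0 < inner ℝ α u + inner ℝ β u}
  let S5 : Set (EuclideanSpace ℝ (Fin n)) :=
    B ∩ {u | inner ℝ α u < 0 ∧ 0 < inner ℝ α u + inner ℝ β u}
  let S6 : Set (EuclideanSpace ℝ (Fin n)) := B ∩ {u | 0 < inner ℝ α u ∧ 0 < inner ℝ β u}
  have m1 : MeasurableSet S1 := measurableSet_ball.inter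
    ((measurableSet_lt (hcont α).measurable measurable_const).inter
      (measurableSet_lt (hcont β).measurable measurable_const))
  have m2 : MeasurableSet S2 := measurableSet_ball.inter
    ((measurableSet_lt measurable_const (hcont α).measurable).inter
      (measurableSet_lt ((hcont α).add (hcont β)).measurable measurable_const))
  have m3 : MeasurableSet S3 := measurableSet_ball.inter
    ((measurableSet_lt measurable_const (hcont β).measurable).inter
      (measurableSet_lt ((hcont α).add (hcont β)).measurable measurable_const))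
  have m4 : MeasurableSet S4 := measurableSet_ball.inter
    ((measurableSet_lt (hcont β).measurable measurable_const).inter
      (measurableSet_lt measurable_const ((hcont α).add (hcont β)).measurable))
  have m5 : MeasurableSet S5 := measurableSet_ball.inter
    ((measurableSet_lt (hcont α).measurable measurable_const).inter
      (measurableSet_lt measurable_const ((hcont α).add (hcont β)).measurable))
  have m6 : MeasurableSet S6 := measurableSet_ball.inter
    ((measurableSet_lt measurable_const (hcont α).measurable).inter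
      (measurableSet_lt measurable_const (hcont β).measurable))
  have hball : ∀ (w : EuclideanSpace ℝ (Fin n) ≃ₗᵢ[ℝ] EuclideanSpace ℝ (Fin n)) u,
      w u ∈ B ↔ u ∈ B := by
    intro w u
    rw [hB, mem_ball_zero_iff, mem_ball_zero_iff, w.norm_map]
  have pre : ∀ (w : EuclideanSpace ℝ (Fin n) ≃ₗᵢ[ℝ] EuclideanSpace ℝ (Fin n))
      (S : Set (EuclideanSpace ℝ (Fin n))), MeasurableSet S → volume (w ⁻¹' S) = volume S := by
    intro w S hS
    exact w.measurePreserving.measure_preimage hS.nullMeasurableSet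
  have e2 : (refl α) ⁻¹' S1 = S2 := by
    ext u
    simp only [S1, S2, Set.mem_preimage, Set.mem_inter_iff, Set.mem_ofPred_eq, hball, ra, rb,
      neg_lt_zero]
  have e3 : (refl β) ⁻¹' S1 = S3 := by
    ext u
    simp only [S1, S3, Set.mem_preimage, Set.mem_inter_iff, Set.mem_ofPred_eq, hball, sa, sb,
      neg_lt_zero]
    tauto
  have e4 : (refl α) ⁻¹' S3 = S4 := by
    ext u
    simp only [S3, S4, Set.mem_preimage, Set.mem_inter_iff, Set.mem_ofPred_eq, hball, ra, rb]
    constructor
    · rintro ⟨h, h1, h2⟩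
      exact ⟨h, by linarith, by linarith⟩
    · rintro ⟨h, h1, h2⟩
      exact ⟨h, by linarith, by linarith⟩
  have e5 : (refl β) ⁻¹' S2 = S5 := by
    ext u
    simp only [S2, S5, Set.mem_preimage, Set.mem_inter_iff, Set.mem_ofPred_eq, hball, sa, sb]
    constructor
    · rintro ⟨h, h1, h2⟩
      exact ⟨h, by linarith, by linarith⟩
    · rintro ⟨h, h1, h2⟩
      exact ⟨h, by linarith, by linarith⟩
  have e6 : (refl α) ⁻¹' S5 = S6 := by
    ext u
    simp only [S5, S6, Set.mem_preimage, Set.mem_inter_iff, Set.mem_ofPred_eq, hball, ra, rb]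
    constructor
    · rintro ⟨h, h1, h2⟩
      exact ⟨h, by linarith, by linarith⟩
    · rintro ⟨h, h1, h2⟩
      exact ⟨h, by linarith, by linarith⟩
  have v2 : volume S2 = volume S1 := by rw [← e2]; exact pre _ _ m1
  have v3 : volume S3 = volume S1 := by rw [← e3]; exact pre _ _ m1
  have v4 : volume S4 = volume S1 := by rw [← e4, pre _ _ m3, v3]
  have v5 : volume S5 = volume S1 := by rw [← e5, pre _ _ m2, v2]
  have v6 : volume S6 = volume S1 := by rw [← e6, pre _ _ m5, v5]
  have hd : volume (S1 ∪ (S2 ∪ (S3 ∪ (S4 ∪ (S5 ∪ S6))))) = 6 * volume S1 := by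
    rw [measure_union _ (m2.union (m3.union (m4.union (m5.union m6)))),
      measure_union _ (m3.union (m4.union (m5.union m6))),
      measure_union _ (m4.union (m5.union m6)), measure_union _ (m5.union m6),
      measure_union _ m6, v2, v3, v4, v5, v6]
    · ring
    all_goals
      rw [Set.disjoint_left]
      intro u hu hu'
      simp only [S1, S2, S3, S4, S5, S6, Set.mem_inter_iff, Set.mem_ofPred_eq,
        Set.mem_union] at hu hu'
      obtain ⟨_, h1, h2⟩ := hu
      first
      | (rcases hu' with ⟨_, a, b⟩ | ⟨_, a, b⟩ | ⟨_, a, b⟩ | ⟨_, a, b⟩ | ⟨_, a, b⟩ <;> linarith)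
      | (rcases hu' with ⟨_, a, b⟩ | ⟨_, a, b⟩ | ⟨_, a, b⟩ | ⟨_, a, b⟩ <;> linarith)
      | (rcases hu' with ⟨_, a, b⟩ | ⟨_, a, b⟩ | ⟨_, a, b⟩ <;> linarith)
      | (rcases hu' with ⟨_, a, b⟩ | ⟨_, a, b⟩ <;> linarith)
      | (obtain ⟨_, a, b⟩ := hu'; linarith)
  calc 6 * volume (B ∩ cone α β) = volume (S1 ∪ (S2 ∪ (S3 ∪ (S4 ∪ (S5 ∪ S6))))) := hd.symm
    _ ≤ volume B := by
      refine measure_mono ?_
      intro u hu
      simp only [S1, S2, S3, S4, S5, S6, Set.mem_inter_iff, Set.mem_union] at hu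
      tauto

end TH220.CF
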